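import Pool.Agent.MP_3f311b_co.Group
import Pool.Agent.MP_3f311b_co.NoSym2

/-! An orbit polytope in `ℝ^5` with 16 vertices, none of whose realisations in `ℝ^5` has all
combinatorial symmetries affine. -/

set_option autoImplicit false

namespace Pool.Agent.Results.MP_3f311b_co.NoAffineRealisation

open Pool.Agent.MP_3f311b_co Matrix

/-- `IsFace S A`: the set `A` consists of the points of `S` at which some linear functional
`ℓ ≤ c` on `S` takes the value `c`. For the vertex set `S` of a polytope these are exactly the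
vertex sets of its faces, the polytope itself and the empty face among them. -/
def IsFace (S A : Set (Fin 5 → ℝ)) : Prop :=
  ∃ (l : (Fin 5 → ℝ) →ₗ[ℝ] ℝ) (c : ℝ), (∀ x ∈ S, l x ≤ c) ∧ A = {x | x ∈ S ∧ l x = c}

/-- The combinatorial symmetries of the polytope with vertex set `S`. -/
def CombSym (S : Set (Fin 5 → ℝ)) (σ : (Fin 5 → ℝ) → (Fin 5 → ℝ)) : Prop :=
  Set.BijOn σ S S ∧ ∀ A ⊆ S, (IsFace S A ↔ IsFace S (σ '' A))

/-- `R` maps `e1` to `e2` to `e3` to `e4` to `-e1` and fixes `e5`. -/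
def R : Matrix (Fin 5) (Fin 5) ℝ :=
  !![0, 0, 0, -1, 0; 1, 0, 0, 0, 0; 0, 1, 0, 0, 0; 0, 0, 1, 0, 0; 0, 0, 0, 0, 1]

/-- `S` fixes `e1`, swaps `e2` and `e4` and maps `e3` to `-e3`, `e5` to `-e5`. -/
def S : Matrix (Fin 5) (Fin 5) ℝ :=
  !![1, 0, 0, 0, 0; 0, 0, 0, 1, 0; 0, 0, -1, 0, 0; 0, 1, 0, 0, 0; 0, 0, 0, 0, -1]

/-! ### The group of order 16 -/

/-- The integer matrices `R^k S^j`, at the index `k + 8 j`. -/
def EZ (i : Fin 16) : Matrix (Fin 5) (Fin 5) ℤ := RZ ^ (i.val % 8) * SZ ^ (i.val / 8)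

theorem EZ_R : ∀ i, RZ * EZ i = EZ (rF i) := by decide +kernel
theorem EZ_R' : ∀ i, RZ' * EZ i = EZ (rG i) := by decide +kernel
theorem EZ_S : ∀ i, SZ * EZ i = EZ (sF i) := by decide +kernel
theorem EZ_X : ∀ i j, (EZ i).mulVec (X 0) j = X i j := by decide +kernel

/-- The group elements `R^k S^j`. -/
noncomputable def elt (i : Fin 16) : GL (Fin 5) ℝ := Rg ^ (i.val % 8) * Sg ^ (i.val / 8)

theorem toR_pow (A : Matrix (Fin 5) (Fin 5) ℤ) (n : ℕ) : toR A ^ n = toR (A ^ n) := by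
  induction n with
  | zero => simp [toR_one]
  | succ n ih => rw [pow_succ, ih, toR_mul, ← pow_succ]

theorem elt_val (i : Fin 16) : ((elt i : GL (Fin 5) ℝ) : Matrix (Fin 5) (Fin 5) ℝ) = toR (EZ i) := by
  unfold elt EZ
  rw [Units.val_mul, Units.val_pow_eq_pow_val, Units.val_pow_eq_pow_val]
  show toR RZ ^ _ * toR SZ ^ _ = _
  rw [toR_pow, toR_pow, toR_mul]

theorem elt_xr (i : Fin 16) :
    ((elt i : GL (Fin 5) ℝ) : Matrix (Fin 5) (Fin 5) ℝ).mulVec (xr 0) = xr i := by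
  rw [elt_val, toR_mulVec_xr]
  ext j
  rw [EZ_X i j]
  rfl

theorem R_elt (i : Fin 16) : Rg * elt i = elt (rF i) := by
  apply Units.ext
  rw [Units.val_mul, elt_val, elt_val]
  show toR RZ * _ = _
  rw [toR_mul, EZ_R]

theorem R'_elt (i : Fin 16) : Rg⁻¹ * elt i = elt (rG i) := by
  apply Units.ext
  rw [Units.val_mul, elt_val, elt_val]
  show toR RZ' * _ = _
  rw [toR_mul, EZ_R']

theorem S_elt (i : Fin 16) : Sg * elt i = elt (sF i) := by
  apply Units.ext
  rw [Units.val_mul, elt_val, elt_val]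
  show toR SZ * _ = _
  rw [toR_mul, EZ_S]

theorem S'_elt (i : Fin 16) : Sg⁻¹ * elt i = elt (sF i) := by
  apply Units.ext
  rw [Units.val_mul, elt_val, elt_val]
  show toR SZ * _ = _
  rw [toR_mul, EZ_S]

theorem mem_closure_iff (g : GL (Fin 5) ℝ) :
    g ∈ Subgroup.closure {Rg, Sg} ↔ ∃ i, g = elt i := by
  constructor
  · intro hg
    induction hg using Subgroup.closure_induction_left with
    | one => exact ⟨0, by simp [elt]⟩
    | mul_left x hx y hy ih =>
      obtain ⟨i, rfl⟩ := ih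
      rcases hx with rfl | rfl
      · exact ⟨_, R_elt i⟩
      · exact ⟨_, S_elt i⟩
    | inv_mul_cancel x hx y hy ih =>
      obtain ⟨i, rfl⟩ := ih
      rcases hx with rfl | rfl
      · exact ⟨_, R'_elt i⟩
      · exact ⟨_, S'_elt i⟩
  · rintro ⟨i, rfl⟩
    exact Subgroup.mul_mem _
      (Subgroup.pow_mem _ (Subgroup.subset_closure (by simp)) _)
      (Subgroup.pow_mem _ (Subgroup.subset_closure (by simp)) _)

theorem elt_inj : Function.Injective elt := by
  intro i j h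
  apply xr_inj
  rw [← elt_xr i, ← elt_xr j, h]

theorem card_closure : Nat.card (Subgroup.closure {Rg, Sg}) = 16 := by
  have hb : Function.Bijective
      (fun i : Fin 16 => (⟨elt i, (mem_closure_iff _).2 ⟨i, rfl⟩⟩ : Subgroup.closure {Rg, Sg})) := by
    constructor
    · intro i j h
      exact elt_inj (congrArg Subtype.val h)
    · rintro ⟨g, hg⟩
      obtain ⟨i, rfl⟩ := (mem_closure_iff g).1 hg
      exact ⟨i, rfl⟩
  rw [← Nat.card_congr (Equiv.ofBijective _ hb), Nat.card_fin]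

theorem orbit_closure :
    {x | ∃ g ∈ Subgroup.closure {Rg, Sg}, x = (g : Matrix (Fin 5) (Fin 5) ℝ).mulVec (xr 0)} =
      Set.range xr := by
  ext x
  constructor
  · rintro ⟨g, hg, rfl⟩
    obtain ⟨i, rfl⟩ := (mem_closure_iff g).1 hg
    exact ⟨i, (elt_xr i).symm⟩
  · rintro ⟨i, rfl⟩
    exact ⟨elt i, (mem_closure_iff _).2 ⟨i, rfl⟩, (elt_xr i).symm⟩

theorem xr_zero : xr 0 = ![1, 2, 0, 1, 1] := by
  ext j
  fin_cases j <;> simp [xr, X, v5]

/-! ### Faces -/

theorem isFace_iff (z : Fin 16 → (Fin 5 → ℝ)) (hz : Function.Injective z) (A : Set (Fin 16)) :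
    IsFace (Set.range z) (z '' A) ↔ Exposed z A := by
  constructor
  · rintro ⟨l, c, h1, h2⟩
    refine ⟨l, c, fun i => h1 _ ⟨i, rfl⟩, fun i => ?_⟩
    have h3 : z i ∈ z '' A ↔ i ∈ A := hz.mem_set_image
    rw [← h3, h2]
    constructor
    · rintro ⟨-, h⟩; exact h
    · intro h; exact ⟨⟨i, rfl⟩, h⟩
  · rintro ⟨l, c, h1, h2⟩
    refine ⟨l, c, ?_, ?_⟩
    · rintro _ ⟨i, rfl⟩; exact h1 i
    · ext x
      constructor
      · rintro ⟨i, hi, rfl⟩
        exact ⟨⟨i, rfl⟩, (h2 i).1 hi⟩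
      · rintro ⟨⟨i, rfl⟩, h⟩
        exact ⟨i, (h2 i).2 h, rfl⟩

theorem dot_check : ∀ i j : Fin 16, ∑ k, X i k * X j k ≤ 7 ∧ (∑ k, X i k * X j k = 7 → i = j) := by
  decide +kernel

theorem dot_self : ∀ i : Fin 16, ∑ k, X i k * X i k = 7 := by decide +kernel

/-- Every point is a vertex. -/
theorem vertex (x : Fin 5 → ℝ) (hx : x ∈ Set.range xr) : IsFace (Set.range xr) {x} := by
  obtain ⟨i, rfl⟩ := hx
  rw [← Set.image_singleton, isFace_iff xr xr_inj]
  refine ⟨LF (X i), 7, fun j => ?_, fun j => ?_⟩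
  · rw [LF_xr]
    exact_mod_cast (dot_check i j).1
  · rw [LF_xr, Set.mem_singleton_iff]
    constructor
    · rintro rfl
      rw [dot_self]; norm_num
    · intro h
      exact ((dot_check i j).2 (by exact_mod_cast h)).symm

/-- A label permutation that preserves the exposed sets gives a combinatorial symmetry of every
realisation. -/
theorem combSym (Y : Fin 16 → (Fin 5 → ℝ)) (hY : Function.Injective Y)
    (hXY : ∀ A : Set (Fin 16), Exposed xr A ↔ Exposed Y A)
    (p : Equiv.Perm (Fin 16)) (hp : Inv p) (hp' : Inv p.symm) :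
    CombSym (Set.range Y) (fun y => Y (p (Function.invFun Y y))) ∧
      ∀ i, (fun y => Y (p (Function.invFun Y y))) (Y i) = Y (p i) := by
  have hinv : ∀ i, Function.invFun Y (Y i) = i := Function.leftInverse_invFun hY
  have hs : ∀ i, (fun y => Y (p (Function.invFun Y y))) (Y i) = Y (p i) := by
    intro i; simp only [hinv]
  have hbij : Set.BijOn (fun y => Y (p (Function.invFun Y y))) (Set.range Y) (Set.range Y) := by
    refine ⟨?_, ?_, ?_⟩
    · rintro _ ⟨i, rfl⟩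
      exact ⟨p i, (hs i).symm⟩
    · rintro _ ⟨i, rfl⟩ _ ⟨j, rfl⟩ h
      rw [hs, hs] at h
      rw [p.injective (hY h)]
    · rintro _ ⟨i, rfl⟩
      exact ⟨Y (p.symm i), ⟨_, rfl⟩, by rw [hs]; simp⟩
  refine ⟨⟨hbij, ?_⟩, hs⟩
  intro A hA
  have hA' : A = Y '' (Y ⁻¹' A) := by
    rw [Set.image_preimage_eq_inter_range, Set.inter_eq_left.2 hA]
  have hσ : (fun y => Y (p (Function.invFun Y y))) '' A = Y '' (p '' (Y ⁻¹' A)) := by
    conv_lhs => rw [hA']
    rw [Set.image_image, Set.image_image]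
    exact Set.image_congr (fun i _ => hs i)
  rw [hσ]
  conv_lhs => rw [hA']
  rw [isFace_iff Y hY, isFace_iff Y hY, ← hXY, ← hXY]
  exact exposed_perm p hp hp' _

/-- **Main result.** Let `G` be the group generated by the two orthogonal matrices `R` and `S`
and let `O` be the orbit of `v = (1, 2, 0, 1, 1)` under `G`. Then `G` has order 16, `O` has 16
points, each of them a vertex, and affine hull `ℝ^5`; and for every set `W` in `ℝ^5` in bijection
with `O` so that faces correspond (every realisation of the orbit polytope, in particular every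
orbit polytope of every group that is combinatorially equivalent to it), some combinatorial
symmetry of `W` is not the restriction of an affine bijection of `ℝ^5`. -/
theorem result :
    ∃ r s : GL (Fin 5) ℝ, (r : Matrix (Fin 5) (Fin 5) ℝ) = R ∧
      (s : Matrix (Fin 5) (Fin 5) ℝ) = S ∧ Nat.card (Subgroup.closure {r, s}) = 16 ∧
      ∀ O : Set (Fin 5 → ℝ), O = {x | ∃ g ∈ Subgroup.closure {r, s},
          x = (g : Matrix (Fin 5) (Fin 5) ℝ).mulVec ![1, 2, 0, 1, 1]} →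
        O.ncard = 16 ∧ (∀ x ∈ O, IsFace O {x}) ∧ affineSpan ℝ O = ⊤ ∧
        ∀ (W : Set (Fin 5 → ℝ)) (f : (Fin 5 → ℝ) → (Fin 5 → ℝ)), Set.BijOn f O W →
          (∀ A ⊆ O, (IsFace O A ↔ IsFace W (f '' A))) →
          ∃ σ : (Fin 5 → ℝ) → (Fin 5 → ℝ), CombSym W σ ∧
            ¬ ∃ T : (Fin 5 → ℝ) ≃ᵃ[ℝ] (Fin 5 → ℝ), ∀ x ∈ W, T x = σ x := by
  have hR : ((Rg : GL (Fin 5) ℝ) : Matrix (Fin 5) (Fin 5) ℝ) = R := by
    show toR RZ = R
    ext i j
    fin_cases i <;> fin_cases j <;> simp [toR, RZ, R]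
  have hS : ((Sg : GL (Fin 5) ℝ) : Matrix (Fin 5) (Fin 5) ℝ) = S := by
    show toR SZ = S
    ext i j
    fin_cases i <;> fin_cases j <;> simp [toR, SZ, S]
  refine ⟨Rg, Sg, hR, hS, card_closure, ?_⟩
  rintro O hO
  rw [← xr_zero, orbit_closure] at hO
  subst hO
  refine ⟨?_, vertex, affine_top, ?_⟩
  · rw [← Set.image_univ, Set.ncard_image_of_injective _ xr_inj, Set.ncard_univ, Nat.card_fin]
  intro W f hf hfac
  by_contra hcon
  push Not at hcon
  have hY : Function.Injective (fun i => f (xr i)) := by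
    intro i j h
    exact xr_inj (hf.injOn ⟨i, rfl⟩ ⟨j, rfl⟩ h)
  have hrange : W = Set.range (fun i => f (xr i)) := by
    rw [← hf.image_eq]
    ext x
    constructor
    · rintro ⟨_, ⟨i, rfl⟩, rfl⟩; exact ⟨i, rfl⟩
    · rintro ⟨i, rfl⟩; exact ⟨_, ⟨i, rfl⟩, rfl⟩
  rw [hrange] at hfac hcon
  have hXY : ∀ A : Set (Fin 16), Exposed xr A ↔ Exposed (fun i => f (xr i)) A := by
    intro A
    rw [← isFace_iff xr xr_inj, ← isFace_iff _ hY]
    rw [hfac _ (Set.image_subset_range _ _), Set.image_image]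
  have hperm : ∀ p : Equiv.Perm (Fin 16), Inv p → Inv p.symm →
      ∃ T : (Fin 5 → ℝ) ≃ᵃ[ℝ] (Fin 5 → ℝ), ∀ i, T (f (xr i)) = f (xr (p i)) := by
    intro p hp hp'
    obtain ⟨h1, h2⟩ := combSym _ hY hXY p hp hp'
    obtain ⟨T, hT⟩ := hcon _ h1
    exact ⟨T, fun i => (hT _ ⟨i, rfl⟩).trans (h2 i)⟩
  obtain ⟨Tr, hTr⟩ := hperm rE inv_r inv_r'
  obtain ⟨Ts, hTs⟩ := hperm sE inv_s inv_s
  obtain ⟨Tt, hTt⟩ := hperm tE inv_t inv_t
  exact no_sym (fun i => f (xr i)) (fun A hA => (hXY A).1 hA.exposed) Tr Ts Tt hTr hTs hTt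

end Pool.Agent.Results.MP_3f311b_co.NoAffineRealisation
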